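import Pool.Agent.H30.GMC.StT

/-!
GMC, modules PSB and IPT: points of projective space.
-/

open AlgebraicGeometry CategoryTheory FCB MvPolynomial

namespace GMC

namespace PSB

theorem decomp {n : ℕ} (p : MvPolynomial (Fin (n + 1)) ℂ) (d : ℕ) :
    (DirectSum.decompose (grd n) p d : MvPolynomial (Fin (n + 1)) ℂ) =
      homogeneousComponent d p :=
  decomposition.decompose'_apply p d

theorem isHom {n : ℕ} (J : Ideal (MvPolynomial (Fin (n + 1)) ℂ))
    (h : ∀ p ∈ J, ∀ d, homogeneousComponent d p ∈ J) : J.IsHomogeneous (grd n) := by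
  intro i r hr
  rw [decomp]
  exact h r hr i

theorem prime {n : ℕ} (x : PS n) : (PI x).IsPrime :=
  (show ProjectiveSpectrum (grd n) from x).isPrime

theorem comp {n : ℕ} (x : PS n) (p : MvPolynomial (Fin (n + 1)) ℂ) (hp : p ∈ PI x) (d : ℕ) :
    homogeneousComponent d p ∈ PI x := by
  rw [← decomp]
  exact (show ProjectiveSpectrum (grd n) from x).asHomogeneousIdeal.isHomogeneous d hp

theorem of_comp {n : ℕ} (J : Ideal (MvPolynomial (Fin (n + 1)) ℂ))
    (p : MvPolynomial (Fin (n + 1)) ℂ) (hp : ∀ d, homogeneousComponent d p ∈ J) : p ∈ J := by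
  rw [← sum_homogeneousComponent p]
  exact J.sum_mem fun d _ => hp d

/-- an ideal containing the variables contains the irrelevant ideal -/
theorem irr_le {n : ℕ} (J : HomogeneousIdeal (grd n))
    (h : ∀ i, (X i : MvPolynomial (Fin (n + 1)) ℂ) ∈ J.toIdeal) :
    HomogeneousIdeal.irrelevant (grd n) ≤ J := by
  intro p hp
  have h0 : constantCoeff p = 0 := by
    have h1 := (HomogeneousIdeal.mem_irrelevant_iff (grd n) p).1 hp
    rw [GradedRing.proj_apply, decomp, homogeneousComponent_zero] at h1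
    simpa [constantCoeff_eq] using h1
  show p ∈ J.toIdeal
  rw [p.as_sum]
  refine J.toIdeal.sum_mem fun m hm => ?_
  have hm0 : m ≠ 0 := by
    rintro rfl
    exact (mem_support_iff.1 hm) (by simpa [constantCoeff_eq] using h0)
  obtain ⟨i, hi⟩ : ∃ i, m i ≠ 0 := by
    by_contra hcon
    push Not at hcon
    exact hm0 (Finsupp.ext hcon)
  have h2 : monomial m (coeff m p) = monomial (m - Finsupp.single i 1) (coeff m p) * X i := by
    rw [X, monomial_mul, mul_one]
    have h3 : m - Finsupp.single i 1 + Finsupp.single i 1 = m :=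
      tsub_add_cancel_of_le (Finsupp.single_le_iff.2 (Nat.one_le_iff_ne_zero.2 hi))
    rw [h3]
  rw [h2]
  exact J.toIdeal.mul_mem_left _ (h i)

theorem exX {n : ℕ} (x : PS n) : ∃ i, (X i : MvPolynomial (Fin (n + 1)) ℂ) ∉ PI x := by
  by_contra hcon
  push Not at hcon
  exact (show ProjectiveSpectrum (grd n) from x).not_irrelevant_le (irr_le _ hcon)

theorem exP {n : ℕ} (J : Ideal (MvPolynomial (Fin (n + 1)) ℂ)) (hJ : J.IsPrime)
    (h : ∀ p ∈ J, ∀ d, homogeneousComponent d p ∈ J)
    (hi : ∃ i, (X i : MvPolynomial (Fin (n + 1)) ℂ) ∉ J) : ∃ x : PS n, PI x = J := by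
  let y : ProjectiveSpectrum (grd n) :=
    { asHomogeneousIdeal := ⟨J, isHom J h⟩
      isPrime := hJ
      not_irrelevant_le := by
        intro hle
        obtain ⟨i, hi⟩ := hi
        exact hi (hle (HomogeneousIdeal.mem_irrelevant_of_mem (grd n) one_pos
          (isHomogeneous_X ℂ i))) }
  exact ⟨(y : Proj (grd n)), rfl⟩

theorem spec {n : ℕ} (x y : PS n) : x ⤳ y ↔ PI x ≤ PI y := by
  rw [specializes_iff_mem_closure]
  exact (ProjectiveSpectrum.le_iff_mem_closure (grd n) (show ProjectiveSpectrum (grd n) from x)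
    (show ProjectiveSpectrum (grd n) from y)).symm

theorem inj {n : ℕ} (x y : PS n) (h : PI x = PI y) : x = y := by
  have : (show ProjectiveSpectrum (grd n) from x) = (show ProjectiveSpectrum (grd n) from y) :=
    ProjectiveSpectrum.ext (HomogeneousIdeal.toIdeal_injective h)
  exact this

end PSB

theorem psb_thm : S_PSB := fun _ =>
  ⟨PSB.prime, fun x p => ⟨fun hp d => PSB.comp x p hp d, PSB.of_comp _ p⟩, PSB.exX,
    PSB.exP, PSB.spec, PSB.inj⟩

namespace IPT

variable {n : ℕ}

/-- `p ↦ Σ p_d (v) T ^ d` -/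
noncomputable def sub (v : Fin (n + 1) → ℂ) :
    MvPolynomial (Fin (n + 1)) ℂ →ₐ[ℂ] Polynomial ℂ :=
  aeval fun i => Polynomial.C (v i) * Polynomial.X

theorem sub_hom (v : Fin (n + 1) → ℂ) (d : ℕ) (p : MvPolynomial (Fin (n + 1)) ℂ)
    (hp : p.IsHomogeneous d) : sub v p = Polynomial.C (eval v p) * Polynomial.X ^ d := by
  conv_lhs => rw [p.as_sum, map_sum]
  rw [eval_eq, map_sum, Finset.sum_mul]
  refine Finset.sum_congr rfl fun m hm => ?_
  rw [sub, aeval_monomial, map_mul, map_prod, Finsupp.prod_fintype _ _ (by simp)]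
  have h1 : ∏ i, (Polynomial.C (v i) * Polynomial.X) ^ m i =
      (∏ i, Polynomial.C (v i ^ m i)) * (Polynomial.X : Polynomial ℂ) ^ d := by
    simp only [mul_pow, Finset.prod_mul_distrib, Finset.prod_pow_eq_pow_sum, map_pow]
    congr 2
    have h2 := hp (mem_support_iff.1 hm)
    rw [← h2, Finsupp.weight_apply, Finsupp.sum_fintype _ _ (by simp)]
    simp
  rw [h1]
  have h3 : ∏ i, Polynomial.C (v i ^ m i) = ∏ i ∈ m.support, Polynomial.C (v i ^ m i) := by
    symm
    apply Finset.prod_subset (Finset.subset_univ _)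
    intro i _ hi
    rw [Finsupp.notMem_support_iff.1 hi, pow_zero, map_one]
  rw [h3, Polynomial.algebraMap_eq, ← mul_assoc]

theorem mem_ker (v : Fin (n + 1) → ℂ) (p : MvPolynomial (Fin (n + 1)) ℂ) :
    p ∈ RingHom.ker (sub v) ↔ ∀ d, eval v (homogeneousComponent d p) = 0 := by
  rw [RingHom.mem_ker]
  have h1 : ∀ d, (sub v p).coeff d = eval v (homogeneousComponent d p) := by
    intro d
    conv_lhs => rw [← sum_homogeneousComponent p, map_sum, Polynomial.finsetSum_coeff]
    simp only [sub_hom v _ _ (homogeneousComponent_isHomogeneous _ p),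
      Polynomial.coeff_C_mul, Polynomial.coeff_X_pow]
    by_cases hd : d ∈ Finset.range (p.totalDegree + 1)
    · rw [Finset.sum_eq_single_of_mem d hd]
      · simp
      · intro b _ hb
        simp [hb.symm]
    · rw [Finset.sum_eq_zero]
      · rw [homogeneousComponent_eq_zero _ p (by simpa using hd), map_zero]
      · intro b hb
        have : d ≠ b := fun h => hd (h ▸ hb)
        simp [this]
  constructor
  · intro h d
    rw [← h1, h, Polynomial.coeff_zero]
  · intro h
    ext d
    rw [h1, h, Polynomial.coeff_zero]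

theorem exPt (v : Fin (n + 1) → ℂ) (hv : v ≠ 0) : ∃ x : PS n, IsPt x v := by
  have hp : (RingHom.ker (sub v)).IsPrime := RingHom.ker_isPrime _
  obtain ⟨x, hx⟩ := PSB.exP (RingHom.ker (sub v)) hp (by
    intro p hp d
    rw [mem_ker] at hp ⊢
    intro e
    rcases eq_or_ne e d with rfl | hed
    · rw [homogeneousComponent_of_mem (homogeneousComponent_isHomogeneous e p), if_pos rfl]
      exact hp e
    · rw [homogeneousComponent_of_mem (homogeneousComponent_isHomogeneous d p), if_neg hed,
        map_zero]) (by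
    obtain ⟨i, hi⟩ : ∃ i, v i ≠ 0 := by
      by_contra hcon
      push Not at hcon
      exact hv (funext hcon)
    refine ⟨i, fun h => hi ?_⟩
    rw [mem_ker] at h
    have h1 := h 1
    rw [homogeneousComponent_of_mem (isHomogeneous_X ℂ i), if_pos rfl, eval_X] at h1
    exact h1)
  refine ⟨x, fun d p hpd => ?_⟩
  rw [hx, mem_ker]
  constructor
  · intro h
    have h1 := h d
    rwa [homogeneousComponent_of_mem hpd, if_pos rfl] at h1
  · intro h e
    rw [homogeneousComponent_of_mem hpd]
    split_ifs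
    · exact h
    · rw [map_zero]

theorem vne (x : PS n) (v : Fin (n + 1) → ℂ) (h : IsPt x v) : v ≠ 0 := by
  rintro rfl
  obtain ⟨i, hi⟩ := PSB.exX x
  exact hi ((h 1 (X i) (isHomogeneous_X ℂ i)).2 (by simp))

theorem le_of_le (x y : PS n) (v : Fin (n + 1) → ℂ) (h : IsPt x v) (hxy : PI x ≤ PI y) :
    PI y ≤ PI x := by
  obtain ⟨i, hi⟩ := PSB.exX y
  have hprime : (PI y).IsPrime := PSB.prime y
  intro p hp
  apply PSB.of_comp
  intro d
  have hpd := PSB.comp y p hp d
  have hh := homogeneousComponent_isHomogeneous d p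
  set q := homogeneousComponent d p with hq
  rw [h d q hh]
  have h1 : (C (v i ^ d) * q - C (eval v q) * X i ^ d) ∈ PI x := by
    rw [h d _ _]
    · simp [mul_comm]
    · refine IsHomogeneous.sub ?_ ?_
      · have := (isHomogeneous_C (Fin (n + 1)) (v i ^ d)).mul hh
        rwa [zero_add] at this
      · have := (isHomogeneous_C (Fin (n + 1)) (eval v q)).mul ((isHomogeneous_X ℂ i).pow d)
        rwa [zero_add, one_mul] at this
  have h2 := hxy h1
  have h3 : C (eval v q) * X i ^ d ∈ PI y := by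
    have h4 := (PI y).sub_mem ((PI y).mul_mem_left (C (v i ^ d)) hpd) h2
    rwa [sub_sub_cancel] at h4
  rcases hprime.mem_or_mem h3 with h4 | h4
  · by_contra hne
    apply hprime.ne_top
    rw [Ideal.eq_top_iff_one]
    have := (PI y).mul_mem_left (C (eval v q)⁻¹) h4
    rwa [← map_mul, inv_mul_cancel₀ hne, map_one] at this
  · exact absurd (hprime.mem_of_pow_mem _ h4) hi

theorem closed (x : PS n) (v : Fin (n + 1) → ℂ) (h : IsPt x v) :
    IsClosed ({x} : Set (PS n)) := by
  rw [← closure_subset_iff_isClosed]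
  intro y hy
  have h1 : x ⤳ y := specializes_iff_mem_closure.2 hy
  have h2 := (PSB.spec x y).1 h1
  exact (PSB.inj y x (le_antisymm (le_of_le x y v h h2) h2)) ▸ rfl

theorem nss (x : PS n) (hx : IsClosed ({x} : Set (PS n))) : ∃ v, IsPt x v := by
  obtain ⟨i, hi⟩ := PSB.exX x
  have hprime : (PI x).IsPrime := PSB.prime x
  have h1 : vanishingIdeal ℂ (zeroLocus ℂ (PI x)) = PI x := IsPrime.vanishingIdeal_zeroLocus _
  rw [← h1, mem_vanishingIdeal_iff] at hi
  push Not at hi
  obtain ⟨v, hv, hvi⟩ := hi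
  rw [aeval_X] at hvi
  obtain ⟨y, hy⟩ := exPt v (fun h => hvi (by rw [h]; rfl))
  have h2 : PI x ≤ PI y := by
    intro p hp
    apply PSB.of_comp
    intro d
    rw [hy d _ (homogeneousComponent_isHomogeneous d p)]
    exact hv _ (PSB.comp x p hp d)
  have h3 : x ⤳ y := (PSB.spec x y).2 h2
  have h4 : y ∈ closure ({x} : Set (PS n)) := specializes_iff_mem_closure.1 h3
  rw [hx.closure_eq] at h4
  have h5 : y = x := h4
  exact ⟨v, h5 ▸ hy⟩

theorem prop (x : PS n) (v w : Fin (n + 1) → ℂ) (hv : IsPt x v) (hw : IsPt x w) :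
    ∃ l : ℂ, l ≠ 0 ∧ w = l • v := by
  have hv0 := vne x v hv
  have hw0 := vne x w hw
  obtain ⟨i, hi⟩ : ∃ i, v i ≠ 0 := by
    by_contra hcon
    push Not at hcon
    exact hv0 (funext hcon)
  have h1 : ∀ j, v i * w j = v j * w i := by
    intro j
    have h2 : (C (v i) * X j - C (v j) * X i : MvPolynomial (Fin (n + 1)) ℂ).IsHomogeneous 1 := by
      refine IsHomogeneous.sub ?_ ?_
      · have := (isHomogeneous_C (Fin (n + 1)) (v i)).mul (isHomogeneous_X ℂ j)
        rwa [zero_add] at this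
      · have := (isHomogeneous_C (Fin (n + 1)) (v j)).mul (isHomogeneous_X ℂ i)
        rwa [zero_add] at this
    have h3 := (hv 1 _ h2).2 (by simp [mul_comm])
    have h4 := (hw 1 _ h2).1 h3
    simp only [map_sub, map_mul, eval_C, eval_X] at h4
    exact sub_eq_zero.1 h4
  have h5 : w = (w i / v i) • v := by
    ext j
    rw [Pi.smul_apply, smul_eq_mul, div_mul_eq_mul_div, eq_div_iff hi, mul_comm (w j), h1 j,
      mul_comm]
  refine ⟨w i / v i, ?_, h5⟩
  intro h6
  rw [h6, zero_smul] at h5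
  exact hw0 h5

end IPT

theorem ipt_thm : S_IPT := fun _ =>
  ⟨IPT.exPt, fun x v h => ⟨IPT.vne x v h, IPT.closed x v h⟩, IPT.nss, IPT.prop⟩

end GMC

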