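import Pool.Agent.H99.GMC.PSB

/-!
GMC, modules XCPT, RATX and HOME: closed points of the variety, coefficient vectors.
-/

open AlgebraicGeometry CategoryTheory FCB MvPolynomial
open Pool.Agent.H22.GMC (Coord Maps Source stratum)

namespace GMC

namespace XCPT

theorem rho_Q (a : Coord 2) : rho (Q a) = mon a := by
  rw [rho, Q, aeval_X, Equiv.apply_symm_apply]

theorem Q_hom (a : Coord 2) : (Q a).IsHomogeneous 1 := isHomogeneous_X ℂ _

theorem IX_le (M : XData) (x : M.X) : IX ≤ PI (M.emb x) := by
  rw [← M.gen]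
  exact (psb_thm 9).2.2.2.2.1 _ _ |>.1
    ((genericPoint_specializes x).map M.emb.continuous)

/-- a symmetric matrix of rank at most one is a square -/
theorem sqr (m : Fin 3 → Fin 3 → ℂ) (h1 : ∀ i j, m i j = m j i)
    (h2 : ∀ i j i' j', m i j * m i' j' = m i j' * m i' j) :
    ∃ a : Fin 3 → ℂ, ∀ i j, m i j = a i * a j := by
  by_cases h : ∃ i0, m i0 i0 ≠ 0
  · obtain ⟨i0, h0⟩ := h
    obtain ⟨s, hs⟩ := IsAlgClosed.exists_pow_nat_eq (m i0 i0) (n := 2) two_pos
    have hs0 : s ≠ 0 := by
      rintro rfl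
      exact h0 (by rw [← hs]; ring)
    refine ⟨fun i => m i0 i / s, fun i j => ?_⟩
    have h3 := h2 i0 i0 i j
    rw [h1 i i0] at h3
    field_simp
    rw [hs]
    linear_combination h3
  · push Not at h
    refine ⟨0, fun i j => ?_⟩
    have h3 := h2 i j j i
    rw [h, zero_mul, h1 j i] at h3
    simpa using h3

theorem eval_eq_zero (v : Fin 10 → ℂ)
    (h1 : ∀ i j, v (eI.symm (some (i, j))) = v (eI.symm (some (j, i))))
    (h2 : ∀ i j i' j', v (eI.symm (some (i, j))) * v (eI.symm (some (i', j'))) =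
        v (eI.symm (some (i, j'))) * v (eI.symm (some (i', j))))
    (G : MvPolynomial (Fin 10) ℂ) (hG : G ∈ IX) : eval v G = 0 := by
  obtain ⟨a, ha⟩ := sqr (fun i j => v (eI.symm (some (i, j)))) h1 h2
  let ab : Fin 4 → ℂ := Fin.snoc (α := fun _ => ℂ) a (v (eI.symm none))
  have key : ∀ G : MvPolynomial (Fin 10) ℂ, eval v G = eval ab (rho G) := by
    intro G
    have h3 : (aeval v : MvPolynomial (Fin 10) ℂ →ₐ[ℂ] ℂ) = (aeval ab).comp rho := by
      refine MvPolynomial.algHom_ext fun k => ?_
      rw [AlgHom.comp_apply, aeval_X, rho, aeval_X]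
      obtain ⟨c, rfl⟩ := eI.symm.surjective k
      rw [Equiv.apply_symm_apply]
      rcases c with _ | ⟨i, j⟩
      · simp only [mon, aeval_X]
        show _ = Fin.snoc (α := fun _ => ℂ) a (v (eI.symm none)) (Fin.last 3)
        rw [Fin.snoc_last]
      · simp only [mon, map_mul, aeval_X]
        show _ = Fin.snoc (α := fun _ => ℂ) a _ i.castSucc *
          Fin.snoc (α := fun _ => ℂ) a _ j.castSucc
        rw [Fin.snoc_castSucc, Fin.snoc_castSucc]
        exact ha i j
    exact congrArg (fun f => f G) h3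
  have h4 : rho G = 0 := hG
  rw [key, h4, map_zero]

end XCPT

/-- MODULE XCPT -/
theorem xcpt_thm (hV : S_VPT) (hI : S_XIDL) : S_XCPT := by
  intro M v
  constructor
  · rintro ⟨x, hx⟩
    refine ⟨((ipt_thm 9).2.1 _ v hx).1, fun i j => ?_, fun i j i' j' => ?_⟩
    · have h1 : (Q (some (i, j)) - Q (some (j, i))) ∈ IX := by
        rw [IX, RingHom.mem_ker, map_sub, XCPT.rho_Q, XCPT.rho_Q, mon, mon, mul_comm, sub_self]
      have h2 := (hx 1 _ ((XCPT.Q_hom _).sub (XCPT.Q_hom _))).1 (XCPT.IX_le M x h1)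
      rw [map_sub, Q, Q, eval_X, eval_X] at h2
      exact sub_eq_zero.1 h2
    · have h1 : (Q (some (i, j)) * Q (some (i', j')) - Q (some (i, j')) * Q (some (i', j))) ∈
          IX := by
        rw [IX, RingHom.mem_ker]
        simp only [map_sub, map_mul, XCPT.rho_Q, mon]
        ring
      have h2 := (hx (1 + 1) _ (((XCPT.Q_hom _).mul (XCPT.Q_hom _)).sub
        ((XCPT.Q_hom _).mul (XCPT.Q_hom _)))).1 (XCPT.IX_le M x h1)
      simp only [map_sub, map_mul, Q, eval_X] at h2
      exact sub_eq_zero.1 h2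
  · rintro ⟨h0, h1, h2⟩
    obtain ⟨x', hx'⟩ := (ipt_thm 9).1 v h0
    have hle : IX ≤ PI x' := by
      intro G hG
      rw [(psb_thm 9).2.1 x' G]
      intro d
      rw [hx' d _ (homogeneousComponent_isHomogeneous d G)]
      exact XCPT.eval_eq_zero v h1 h2 _ (hI.2.1 G hG d)
    have hle' : M.V.I ≤ PI x' := by
      show PI (M.emb (genericPoint M.X)) ≤ PI x'
      rw [M.gen]
      exact hle
    obtain ⟨y, hy⟩ := (hV M.V).2.1 x' hle'
    exact ⟨y, by
      have hy' : M.emb y = x' := hy
      rw [hy']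
      exact hx'⟩

namespace RATX

variable {e : ℕ}

/-- the coefficients with the names of helper22 -/
abbrev cf (c : Fin 10 × Fin (e + 1) → ℂ) : Coord 2 × Fin (e + 1) → ℂ :=
  fun p => c (eI.symm p.1, p.2)

theorem eval_form (c : Fin 10 × Fin (e + 1) → ℂ) (a : Coord 2) (s : ℂ) :
    (Pool.Agent.H22.GMC.form (cf c) a).eval s = ev c s 1 (eI.symm a) := by
  rw [Pool.Agent.H22.GMC.form, Polynomial.eval_finsetSum, ev]
  refine Finset.sum_congr rfl fun j _ => ?_
  simp

theorem coeff_form (c : Fin 10 × Fin (e + 1) → ℂ) (a : Coord 2) :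
    (Pool.Agent.H22.GMC.form (cf c) a).coeff e = c (eI.symm a, Fin.last e) := by
  rw [Pool.Agent.H22.GMC.form, Polynomial.finsetSum_coeff]
  simp only [Polynomial.coeff_C_mul, Polynomial.coeff_X_pow]
  rw [Finset.sum_eq_single (Fin.last e)]
  · simp
  · intro j _ hj
    have : e ≠ (j : ℕ) := by
      intro h
      exact hj (Fin.ext h.symm)
    simp [this]
  · simp

theorem natDegree_form (c : Fin 10 × Fin (e + 1) → ℂ) (a : Coord 2) :
    (Pool.Agent.H22.GMC.form (cf c) a).natDegree ≤ e := by
  rw [Pool.Agent.H22.GMC.form]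
  refine Polynomial.natDegree_sum_le_of_forall_le _ _ fun j _ => ?_
  refine (Polynomial.natDegree_C_mul_X_pow_le _ _).trans ?_
  have := j.2
  omega

theorem ev_ne (c : Fin 10 × Fin (e + 1) → ℂ) (s t : ℂ) (ht : t ≠ 0) (i : Fin 10) :
    ev c s t i = t ^ e * ev c (s / t) 1 i := by
  rw [ev, ev, Finset.mul_sum]
  refine Finset.sum_congr rfl fun j _ => ?_
  have hj : (j : ℕ) ≤ e := by have := j.2; omega
  have h1 : t ^ e = t ^ (j : ℕ) * t ^ (e - j) := by
    rw [← pow_add, Nat.add_sub_cancel' hj]
  rw [h1, div_pow, one_pow, mul_one]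
  field_simp

theorem ev_zero (c : Fin 10 × Fin (e + 1) → ℂ) (s : ℂ) (i : Fin 10) :
    ev c s 0 i = c (i, Fin.last e) * s ^ e := by
  rw [ev, Finset.sum_eq_single (Fin.last e)]
  · simp
  · intro j _ hj
    have h1 : e - (j : ℕ) ≠ 0 := by
      have := j.2
      have h2 : (j : ℕ) ≠ e := fun h => hj (Fin.ext h)
      omega
    rw [zero_pow h1, mul_zero]
  · simp

theorem unique {n : ℕ} (x y : PS n) (v : Fin (n + 1) → ℂ) (hx : IsPt x v) (hy : IsPt y v) :
    x = y := by
  refine (psb_thm n).2.2.2.2.2 x y ?_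
  ext p
  rw [(psb_thm n).2.1 x p, (psb_thm n).2.1 y p]
  refine forall_congr' fun d => ?_
  rw [hx d _ (homogeneousComponent_isHomogeneous d p),
    hy d _ (homogeneousComponent_isHomogeneous d p)]

end RATX

/-- MODULE RATX -/
theorem ratx_thm (hMA : S_MORA) (hMB : S_MORB) (hX : S_XCPT) : S_RATX := by
  intro M e c
  constructor
  · rintro ⟨g, hg1, hg2⟩
    have key : ∀ s t : ℂ, ![s, t] ≠ 0 → ∃ x : M.X, IsPt (M.emb x) (ev c s t) := by
      intro s t hst
      obtain ⟨x, hx⟩ := (ipt_thm 1).1 ![s, t] hst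
      exact ⟨g x, hg2 s t x hx⟩
    have hne1 : ∀ s : ℂ, ![s, (1 : ℂ)] ≠ 0 := by
      intro s h
      have := congrFun h 1
      simp at this
    have hne2 : ![(1 : ℂ), (0 : ℂ)] ≠ 0 := by
      intro h
      have := congrFun h 0
      simp at this
    constructor
    · intro i j
      refine Polynomial.funext fun s => ?_
      rw [RATX.eval_form, RATX.eval_form]
      exact ((hX M _).1 (key s 1 (hne1 s))).2.1 i j
    · intro i j i' j'
      refine Polynomial.funext fun s => ?_
      rw [Polynomial.eval_mul, Polynomial.eval_mul]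
      simp only [RATX.eval_form]
      exact ((hX M _).1 (key s 1 (hne1 s))).2.2 i j i' j'
    · intro s
      have h1 := ((hX M _).1 (key s 1 (hne1 s))).1
      by_contra hcon
      push Not at hcon
      apply h1
      funext k
      have h2 := hcon (eI k)
      rw [RATX.eval_form, Equiv.symm_apply_apply] at h2
      exact h2
    · have h1 := ((hX M _).1 (key 1 0 hne2)).1
      by_contra hcon
      push Not at hcon
      apply h1
      funext k
      have h2 : c (eI.symm (eI k), Fin.last e) = 0 := hcon (eI k)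
      rw [Equiv.symm_apply_apply] at h2
      rw [RATX.ev_zero, h2]
      simp
  · intro h
    have hmul : ∀ (p q r u : Polynomial ℂ), p.natDegree ≤ e → q.natDegree ≤ e →
        r.natDegree ≤ e → u.natDegree ≤ e → p * q = r * u →
        p.coeff e * q.coeff e = r.coeff e * u.coeff e := by
      intro p q r u hp hq hr hu h
      rw [← Polynomial.coeff_mul_add_eq_of_natDegree_le hp hq, h,
        Polynomial.coeff_mul_add_eq_of_natDegree_le hr hu]
    have hne : ∀ s t : ℂ, ![s, t] ≠ 0 → ev c s t ≠ 0 := by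
      intro s t hst hz
      by_cases ht : t = 0
      · subst ht
        have hs : s ≠ 0 := by
          rintro rfl
          exact hst (by ext i; fin_cases i <;> rfl)
        obtain ⟨a, ha⟩ := h.base_infty
        have h1 := congrFun hz (eI.symm a)
        rw [RATX.ev_zero] at h1
        have h2 : c (eI.symm a, Fin.last e) * s ^ e = 0 := h1
        rcases mul_eq_zero.1 h2 with h3 | h3
        · exact ha h3
        · exact pow_ne_zero _ hs h3
      · obtain ⟨a, ha⟩ := h.base (s / t)
        rw [RATX.eval_form] at ha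
        have h1 := congrFun hz (eI.symm a)
        rw [RATX.ev_ne c s t ht] at h1
        have h2 : t ^ e * ev c (s / t) 1 (eI.symm a) = 0 := h1
        rcases mul_eq_zero.1 h2 with h3 | h3
        · exact pow_ne_zero _ ht h3
        · exact ha h3
    have hsy : ∀ s t : ℂ, ∀ i j, ev c s t (eI.symm (some (i, j))) =
        ev c s t (eI.symm (some (j, i))) := by
      intro s t i j
      by_cases ht : t = 0
      · subst ht
        rw [RATX.ev_zero, RATX.ev_zero, ← RATX.coeff_form c (some (i, j)),
          ← RATX.coeff_form c (some (j, i))]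
        have h1 := h.symm i j
        rw [show Pool.Agent.H22.GMC.form (RATX.cf c) (some (i, j)) =
          Pool.Agent.H22.GMC.form (RATX.cf c) (some (j, i)) from h1]
      · rw [RATX.ev_ne c s t ht, RATX.ev_ne c s t ht, ← RATX.eval_form, ← RATX.eval_form]
        have h1 := h.symm i j
        rw [show Pool.Agent.H22.GMC.form (RATX.cf c) (some (i, j)) =
          Pool.Agent.H22.GMC.form (RATX.cf c) (some (j, i)) from h1]
    have hrk : ∀ s t : ℂ, ∀ i j i' j', ev c s t (eI.symm (some (i, j))) *
        ev c s t (eI.symm (some (i', j'))) = ev c s t (eI.symm (some (i, j'))) *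
        ev c s t (eI.symm (some (i', j))) := by
      intro s t i j i' j'
      have h1 : Pool.Agent.H22.GMC.form (RATX.cf c) (some (i, j)) *
          Pool.Agent.H22.GMC.form (RATX.cf c) (some (i', j')) =
          Pool.Agent.H22.GMC.form (RATX.cf c) (some (i, j')) *
          Pool.Agent.H22.GMC.form (RATX.cf c) (some (i', j)) := h.rank i j i' j'
      by_cases ht : t = 0
      · subst ht
        have h2 := hmul _ _ _ _ (RATX.natDegree_form c _) (RATX.natDegree_form c _)
          (RATX.natDegree_form c _) (RATX.natDegree_form c _) h1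
        simp only [RATX.coeff_form] at h2
        simp only [RATX.ev_zero]
        linear_combination (s ^ e * s ^ e) * h2
      · have h2 := congrArg (Polynomial.eval (s / t)) h1
        simp only [Polynomial.eval_mul, RATX.eval_form] at h2
        simp only [RATX.ev_ne c s t ht]
        linear_combination (t ^ e * t ^ e) * h2
    obtain ⟨g, hg1, hg2⟩ := hMA 9 e c hne
    obtain ⟨g', hg'⟩ := hMB M.V g (by
      intro x hx
      obtain ⟨v, hv⟩ := (ipt_thm 1).2.2.1 x hx
      have hv0 := ((ipt_thm 1).2.1 x v hv).1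
      have hvv : v = ![v 0, v 1] := by
        ext i
        fin_cases i <;> rfl
      rw [hvv] at hv hv0
      have h1 := hg2 (v 0) (v 1) x hv
      obtain ⟨y, hy⟩ := (hX M (ev c (v 0) (v 1))).2 ⟨hne _ _ hv0, hsy _ _, hrk _ _⟩
      exact ⟨y, RATX.unique _ _ _ hy h1⟩)
    refine ⟨g', ?_, ?_⟩
    · show g' ≫ M.emb ≫ PSstr 9 = PSstr 1
      rw [← Category.assoc]
      have h3 : g' ≫ M.emb = g := hg'
      rw [h3, hg1]
    · have h3 : g' ≫ M.emb = g := hg'
      rw [h3]
      exact hg2

namespace HOME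

theorem comap_ptp {σ τ : Type} (f : τ → σ) (x : σ → ℂ) :
    PrimeSpectrum.comap (rename f : MvPolynomial τ ℂ →ₐ[ℂ] MvPolynomial σ ℂ).toRingHom
      (MvPolynomial.pointToPoint (k := ℂ) x) = MvPolynomial.pointToPoint (k := ℂ) (x ∘ f) := by
  refine PrimeSpectrum.ext ?_
  ext p
  show rename f p ∈ vanishingIdeal ℂ {x} ↔ p ∈ vanishingIdeal ℂ {x ∘ f}
  rw [mem_vanishingIdeal_singleton_iff, mem_vanishingIdeal_singleton_iff, aeval_rename]

end HOME

/-- MODULE HOME -/
theorem home_thm (hR : S_RATX) : S_HOME := by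
  intro M e
  let f : Coord 2 × Fin (e + 1) → Fin 10 × Fin (e + 1) := fun p => (eI.symm p.1, p.2)
  let f' : Fin 10 × Fin (e + 1) → Coord 2 × Fin (e + 1) := fun p => (eI p.1, p.2)
  have hff' : ∀ p, f (f' p) = p := fun p => by
    show (eI.symm (eI p.1), p.2) = p
    rw [Equiv.symm_apply_apply]
  have hf'f : ∀ p, f' (f p) = p := fun p => by
    show (eI (eI.symm p.1), p.2) = p
    rw [Equiv.apply_symm_apply]
  let F : RatMap M.V e → Maps ℂ 2 e := fun c => ⟨c.coeff ∘ f, (hR M e c.coeff).1 c.isMap⟩
  let G : Maps ℂ 2 e → RatMap M.V e := fun c => ⟨c.coeffs ∘ f', (hR M e (c.coeffs ∘ f')).2 (by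
    have h1 : (fun p : Coord 2 × Fin (e + 1) => (c.coeffs ∘ f') (eI.symm p.1, p.2)) =
        c.coeffs := by
      funext p
      show c.coeffs (f' (f p)) = c.coeffs p
      rw [hf'f]
    rw [h1]
    exact c.isMap)⟩
  have hFG : ∀ c, F (G c) = c := by
    intro c
    rcases c with ⟨c, hc⟩
    have : (c ∘ f') ∘ f = c := by
      funext p
      show c (f' (f p)) = c p
      rw [hf'f]
    simp only [F, G, this]
  have hGF : ∀ c, G (F c) = c := by
    intro c
    rcases c with ⟨c, hc⟩
    have : (c ∘ f) ∘ f' = c := by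
      funext p
      show c (f (f' p)) = c p
      rw [hff']
    simp only [F, G, this]
  have hF : Continuous F := by
    rw [continuous_induced_rng]
    have h1 : ((fun c : Maps ℂ 2 e => MvPolynomial.pointToPoint (k := ℂ) c.coeffs) ∘ F) =
        (PrimeSpectrum.comap
          (rename f : MvPolynomial _ ℂ →ₐ[ℂ] MvPolynomial _ ℂ).toRingHom) ∘
        (fun c : RatMap M.V e => MvPolynomial.pointToPoint (k := ℂ) c.coeff) := by
      funext c
      exact (HOME.comap_ptp f c.coeff).symm
    rw [h1]
    exact (PrimeSpectrum.continuous_comap _).comp continuous_induced_dom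
  have hG : Continuous G := by
    rw [continuous_induced_rng]
    have h1 : ((fun c : RatMap M.V e => MvPolynomial.pointToPoint (k := ℂ) c.coeff) ∘ G) =
        (PrimeSpectrum.comap
          (rename f' : MvPolynomial _ ℂ →ₐ[ℂ] MvPolynomial _ ℂ).toRingHom) ∘
        (fun c : Maps ℂ 2 e => MvPolynomial.pointToPoint (k := ℂ) c.coeffs) := by
      funext c
      exact (HOME.comap_ptp f' c.coeffs).symm
    rw [h1]
    exact (PrimeSpectrum.continuous_comap _).comp continuous_induced_dom
  exact ⟨{ toFun := F, invFun := G, left_inv := hGF, right_inv := hFG,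
           continuous_toFun := hF, continuous_invFun := hG }, fun c a j => rfl⟩

end GMC

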